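import Mathlib

namespace Pool.Agent.Results.MP_cb5b52_nt.Counter

open Filter Topology Finset

/-- `p_A(n,k)`: number of tuples `(c_1..c_k)` with `∑ c_i a_i = n` (indices from 0) -/
noncomputable def p (A : ℕ → ℕ) (n k : ℕ) : ℕ :=
  Nat.card {c : Fin k → ℕ // ∑ i, c i * A i = n}

/-- proportion of `n ≤ N` with `p_A(n,k)` odd -/
noncomputable def ratio (A : ℕ → ℕ) (k N : ℕ) : ℝ :=
  (((range (N + 1)).filter fun n => Odd (p A n k)).card : ℝ) / N

/-- the odd density, as an upper limit (equal to the limit, which exists) -/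
noncomputable def δ (A : ℕ → ℕ) (k : ℕ) : ℝ := limsup (ratio A k) atTop

def A0 (i : ℕ) : ℕ := if i < 4 then 1 else 4 * i

def rot {m : ℕ} (c : Fin (m + 4) → ℕ) : Fin (m + 4) → ℕ :=
  Fin.cons (c 1) (Fin.cons (c 2) (Fin.cons (c 3) (Fin.cons (c 0)
    fun j : Fin m => c j.succ.succ.succ.succ)))

theorem sum_eq {m : ℕ} (c : Fin (m + 4) → ℕ) : ∑ i, c i * A0 i =
    c 0 + c 1 + c 2 + c 3 + 4 * ∑ j : Fin m, c j.succ.succ.succ.succ * (j + 4) := by
  simp only [Fin.sum_univ_succ, mul_sum]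
  have : ∀ j : Fin m, c j.succ.succ.succ.succ * A0 j.succ.succ.succ.succ =
      4 * (c j.succ.succ.succ.succ * (j + 4)) := fun j => by
    simp only [A0, Fin.val_succ]
    rw [if_neg (by omega)]; ring
  simp only [this]
  change c 0 * 1 + (c 1 * 1 + (c 2 * 1 + (c 3 * 1 + _))) = _
  ring

theorem A0_pos (i : ℕ) : 0 < A0 i := by unfold A0; split_ifs <;> omega

theorem dvd_of_odd (n m : ℕ) (h : Odd (p A0 n (m + 4))) : 4 ∣ n := by
  by_contra hn
  let T := {c : Fin (m + 4) → ℕ // ∑ i, c i * A0 i = n}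
  have : Finite T := by
    refine Finite.of_injective (fun (c : T) (i : Fin (m + 4)) => (⟨c.1 i, ?_⟩ : Fin (n + 1))) ?_
    · have h1 := single_le_sum (f := fun i : Fin (m + 4) => c.1 i * A0 i)
        (fun _ _ => Nat.zero_le _) (mem_univ i)
      rw [c.2] at h1
      have := Nat.le_mul_of_pos_right (c.1 i) (A0_pos i)
      omega
    · intro c d e
      ext i
      exact congrArg Fin.val (congrFun e i)
  have := Fintype.ofFinite T
  let f : Function.End T := fun c => ⟨rot c.1, by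
    have := c.2
    rw [sum_eq] at this ⊢
    change c.1 1 + c.1 2 + c.1 3 + c.1 0 + 4 * ∑ j : Fin m, c.1 j.succ.succ.succ.succ * (j + 4) = n
    omega⟩
  have hf : f ^ 2 ^ 2 = 1 := by
    funext c
    apply Subtype.ext
    change rot (rot (rot (rot c.1))) = c.1
    funext i
    refine Fin.cases rfl (Fin.cases rfl (Fin.cases rfl (Fin.cases rfl fun _ => rfl))) i
  classical
  have key := Equiv.Perm.card_fixedPoints_modEq hf
  have : IsEmpty (Function.fixedPoints f) := ⟨fun ⟨c, hc⟩ => by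
    have e : rot c.1 = c.1 := congrArg Subtype.val hc
    have e0 : c.1 1 = c.1 0 := congrFun e 0
    have e1 : c.1 2 = c.1 1 := congrFun e 1
    have e2 : c.1 3 = c.1 2 := congrFun e 2
    have := c.2
    rw [sum_eq] at this
    omega⟩
  rw [Fintype.card_eq_zero (α := Function.fixedPoints f), ← Nat.card_eq_fintype_card] at key
  exact Nat.not_even_iff_odd.2 h (Nat.even_iff.2 key)

theorem ratio_le (m N : ℕ) (hN : 12 ≤ N) : ratio A0 (m + 4) N ≤ 1 / 3 := by
  have h1 : ((range (N + 1)).filter fun n => Odd (p A0 n (m + 4))).card ≤ N / 4 + 1 := by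
    refine (card_le_card (t := (range (N / 4 + 1)).image (4 * ·)) fun n hn => ?_).trans
      (card_image_le.trans (card_range _).le)
    obtain ⟨h1, h2⟩ := mem_filter.1 hn
    obtain ⟨j, rfl⟩ := dvd_of_odd _ _ h2
    rw [mem_range] at h1
    exact mem_image.2 ⟨j, mem_range.2 (by omega), rfl⟩
  have h2 : 3 * ((range (N + 1)).filter fun n => Odd (p A0 n (m + 4))).card ≤ N := by omega
  have h3 : (0 : ℝ) < N := by exact_mod_cast (by omega : 0 < N)
  rw [ratio, div_le_div_iff₀ h3 (by norm_num)]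
  have : ((3 * ((range (N + 1)).filter fun n => Odd (p A0 n (m + 4))).card : ℕ) : ℝ) ≤ N := by
    exact_mod_cast h2
  push_cast at this
  linarith

theorem result : ∃ A : ℕ → ℕ, (∀ i, 0 < A i) ∧ (∀ d : ℕ, (∀ i, d ∣ A i) → d = 1) ∧
    {q : ℕ | q.Prime ∧ ∃ i, q ∣ A i}.Infinite ∧ (∀ k ≥ 4, δ A k ≤ 1 / 3) ∧
    ¬ Tendsto (δ A) atTop (𝓝 (1 / 2)) := by
  have h : ∀ k ≥ 4, δ A0 k ≤ 1 / 3 := by
    intro k hk
    obtain ⟨m, rfl⟩ : ∃ m, k = m + 4 := ⟨k - 4, by omega⟩
    refine limsup_le_of_le (isCoboundedUnder_le_of_le _ (x := 0) fun N => ?_)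
      (eventually_atTop.2 ⟨12, ratio_le m⟩)
    unfold ratio; positivity
  refine ⟨A0, A0_pos, fun d hd => Nat.dvd_one.1 (hd 0), ?_, h, fun ht => ?_⟩
  · refine Nat.infinite_setOfPred_prime.mono fun q hq => ⟨hq, 4 * q, ?_⟩
    have := Nat.Prime.two_le hq
    unfold A0
    rw [if_neg (by omega)]
    exact ⟨16, by ring⟩
  · have := le_of_tendsto ht (eventually_atTop.2 ⟨4, h⟩)
    norm_num at this

end Pool.Agent.Results.MP_cb5b52_nt.Counter
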